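import Pool.Agent.Q27.RelComm.Final

/-! Commutator containment for a normal and an arbitrary subgroup of a free group. -/

namespace Pool.Agent.Results.MP_16b0c2_al.Contained

universe u

/-- Let `F` be a noncyclic free group (of any rank, finite or infinite), `R` a normal subgroup and
`S` an arbitrary subgroup of `F`. If `[R, R] ⊆ [S, S]` then `R ⊆ S`. -/
theorem result (F : Type u) [Group F] [IsFreeGroup F] (hF : ¬ IsCyclic F) (R S : Subgroup F)
    (hR : R.Normal) (h : ⁅R, R⁆ ≤ ⁅S, S⁆) : R ≤ S := by
  refine Q27.RelComm.main ?_ R S hR h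
  by_contra hcon
  push Not at hcon
  apply hF
  let e := IsFreeGroup.toFreeGroup F
  obtain ⟨k, -, hk⟩ := Q27.FreeFacts.comm_cyclic (⊤ : Subgroup
    (FreeGroup (IsFreeGroup.Generators F))) (by
      intro a _ b _
      have h1 := hcon (e.symm a) (e.symm b)
      have h2 := congrArg e h1
      simpa using h2)
  refine ⟨e.symm k, fun x => ?_⟩
  obtain ⟨n, hn⟩ := hk (e x) trivial
  refine ⟨n, ?_⟩
  change (e.symm k) ^ n = x
  rw [← map_zpow, ← hn, MulEquiv.symm_apply_apply]

end Pool.Agent.Results.MP_16b0c2_al.Contained
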